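import Pool.Agent.MBX.Stmts

/-!
# MBX row FUB: Fubini for nice functions
-/

set_option autoImplicit false

open MeasureTheory Complex ProbabilityTheory

namespace Pool.Agent.MBX.H65

open Pool.Agent.Helper49_Pauli
open Pool.Agent.Loc (γn PB)

theorem fub (hNfi : NfiStmt) : FubStmt := by
  intro ι _ _ F G hF hG
  have iF := hNfi ι F hF
  have iG := hNfi ι G hG
  have eF : II F = ∫ y, ∫ x, F y x ∂(volume : Measure X3) ∂(γn ι) := by
    unfold II
    exact integral_prod (fun z : (ι → ℝ) × X3 => F z.1 z.2) iF
  have eG : II G = ∫ y, ∫ x, G y x ∂(volume : Measure X3) ∂(γn ι) := by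
    unfold II
    exact integral_prod (fun z : (ι → ℝ) × X3 => G z.1 z.2) iG
  have jF : Integrable (fun y => ∫ x, F y x ∂(volume : Measure X3)) (γn ι) :=
    iF.integral_prod_left
  have jG : Integrable (fun y => ∫ x, G y x ∂(volume : Measure X3)) (γn ι) :=
    iG.integral_prod_left
  constructor
  · intro h
    rw [eF, eG]
    exact integral_congr_ae (ae_of_all _ h)
  · intro h
    rw [eF, eG]
    exact integral_mono jF jG h

end Pool.Agent.MBX.H65
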